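import Pool.Agent.H72.PER.Targets
import Pool.Agent.H72.HRA.Targets
import Pool.Agent.H72.BF.Targets

/-!
Row LFX of the board per_modules (MP_3cf473_nt): a pair of spaces over the residue field lifts to
pairs of spaces of the same dimensions over the complex numbers.
-/

set_option autoImplicit false

open Module Filter

namespace Pool.Agent.H49.PER

open Pool.Agent.H72.PER
open Pool.Agent.H72.BF (Pkg AlgB T_LFT T_ROOT)
open Pool.Agent.H72.HRA (T_POL)

/-- echelon bases over a field -/
theorem ech_field {K : Type} [Field K] {c : ℕ} (U : Submodule K (Fin c → K)) {u : ℕ}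
    (hu : finrank K U = u) :
    ∃ (J : Fin u → Fin c) (b : Fin u → Fin c → K), (∀ i, b i ∈ U) ∧
      (∀ i j, b i (J j) = if i = j then 1 else 0) ∧ ∀ v ∈ U, v = ∑ i, v (J i) • b i := by
  classical
  let bs : Basis (Fin u) K U := finBasisOfFinrankEq K U hu
  let Mx : (Fin u → Fin c) → Matrix (Fin u) (Fin u) K :=
    fun J => Matrix.of fun a b => (bs a : Fin c → K) (J b)
  obtain ⟨J, hdet⟩ : ∃ J : Fin u → Fin c, (Mx J).det ≠ 0 := by
    let B : Matrix (Fin u) (Fin c) K := Matrix.of fun a j => (bs a : Fin c → K) j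
    have hli : LinearIndependent K B.row := by
      have h1 : LinearIndependent K (fun a => (bs a : Fin c → K)) := by
        have := bs.linearIndependent
        exact this.map' U.subtype (Submodule.ker_subtype U)
      exact h1
    have hrank : B.rank = u := by
      have := hli.rank_matrix
      simpa using this
    have hcol : finrank K (Submodule.span K (Set.range B.col)) = u := by
      have h := hrank
      rw [Matrix.rank_eq_finrank_span_cols] at h
      exact h
    obtain ⟨κ, a, hainj, hspan, hind⟩ := exists_linearIndependent' K B.col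
    have hfin : Finite κ := Finite.of_injective a hainj
    have := Fintype.ofFinite κ
    have hcard : Fintype.card κ = u := by
      rw [← hcol, ← hspan, finrank_span_eq_card hind]
    let e : Fin u ≃ κ := (Fintype.equivFinOfCardEq hcard).symm
    refine ⟨fun b => a (e b), ?_⟩
    have hind2 : LinearIndependent K (fun b : Fin u => B.col (a (e b))) :=
      hind.comp e e.injective
    have hcols : LinearIndependent K (Mx (fun b => a (e b))).col := hind2
    have hun := Matrix.linearIndependent_cols_iff_isUnit.1 hcols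
    exact ((Matrix.isUnit_iff_isUnit_det _).1 hun).ne_zero
  let ρ : U →ₗ[K] (Fin u → K) := LinearMap.pi fun j => (LinearMap.proj (J j)).comp U.subtype
  have hinj : Function.Injective ρ := by
    rw [← LinearMap.ker_eq_bot, LinearMap.ker_eq_bot']
    intro v hv
    have h1 : Matrix.vecMul (fun a => bs.repr v a) (Mx J) = 0 := by
      funext j
      have h2 : (v : Fin c → K) (J j) = 0 := congrFun hv j
      have h3 : v = ∑ a, (bs.repr v a) • bs a := (bs.sum_repr v).symm
      have h4 : (v : Fin c → K) = ∑ a, (bs.repr v a) • (bs a : Fin c → K) := by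
        have := congrArg (Subtype.val) h3
        simpa only [Submodule.coe_sum, Submodule.coe_smul] using this
      have h5 := congrFun h4 (J j)
      rw [h2, Finset.sum_apply] at h5
      simp only [Matrix.vecMul, dotProduct, Mx, Matrix.of_apply, Pi.zero_apply]
      rw [h5]
      refine Finset.sum_congr rfl fun a _ => ?_
      rw [Pi.smul_apply, smul_eq_mul]
    have h6 := Matrix.eq_zero_of_vecMul_eq_zero hdet h1
    have h7 : bs.repr v = 0 := by
      ext a
      exact congrFun h6 a
    exact (LinearEquiv.map_eq_zero_iff bs.repr).1 h7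
  have hfr : finrank K U = finrank K (Fin u → K) := by
    rw [hu]; simp
  have hsurj : Function.Surjective ρ :=
    (LinearMap.injective_iff_surjective_of_finrank_eq_finrank hfr).1 hinj
  choose b hb using fun i : Fin u => hsurj (Pi.single i 1)
  have hbJ : ∀ i j, (b i : Fin c → K) (J j) = if i = j then 1 else 0 := by
    intro i j
    have h1 : (b i : Fin c → K) (J j) = (Pi.single i 1 : Fin u → K) j := congrFun (hb i) j
    rw [h1, Pi.single_apply]
    by_cases h : i = j
    · rw [if_pos h, if_pos h.symm]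
    · rw [if_neg h, if_neg (Ne.symm h)]
  refine ⟨J, fun i => (b i : Fin c → K), fun i => (b i).2, hbJ, ?_⟩
  intro v hv
  have h1 : (⟨v, hv⟩ : U) = ∑ i, v (J i) • b i := by
    apply hinj
    funext j
    have h2 : ρ (⟨v, hv⟩ : U) j = v (J j) := rfl
    rw [h2, map_sum, Finset.sum_apply]
    have h3 : ∀ i, ρ (v (J i) • b i) j = v (J i) * if i = j then 1 else 0 := by
      intro i
      rw [map_smul, Pi.smul_apply, smul_eq_mul]
      congr 1
      exact hbJ i j
    rw [Finset.sum_congr rfl fun i _ => h3 i]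
    simp
  have h2 := congrArg Subtype.val h1
  simpa only [Submodule.coe_sum, Submodule.coe_smul] using h2

/-- vectors with a unit minor span a space of the expected dimension -/
theorem finrank_unit {K : Type} [Field K] {c u : ℕ} (J : Fin u → Fin c) (b : Fin u → Fin c → K)
    (hb : ∀ i j, b i (J j) = if i = j then 1 else 0) :
    finrank K (Submodule.span K (Set.range b)) = u := by
  have hli : LinearIndependent K b := by
    rw [Fintype.linearIndependent_iff]
    intro g hg i
    have h1 := congrFun hg (J i)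
    rw [Finset.sum_apply] at h1
    simp only [Pi.smul_apply, smul_eq_mul, hb, Pi.zero_apply] at h1
    simpa using h1
  have := finrank_span_eq_card hli
  simpa using this

/-- sequences of algebraic numbers of bounded degree and polynomial height -/
def Alg (H : ℕ → ℝ) (z : ℕ → ℂ) : Prop := ∃ δ c : ℕ, ∀ t, AlgB δ (H t ^ c) (z t)

theorem algB_mono3 {δ δ' : ℕ} {A A' : ℝ} {x : ℂ} (h : AlgB δ A x) (hδ : δ ≤ δ') (hA : A ≤ A') :
    AlgB δ' A' x := by
  obtain ⟨p, h1, h2, h3, h4⟩ := h
  exact ⟨p, h1, h2.trans hδ, fun i => (h3 i).trans hA, h4⟩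

section
variable {H : ℕ → ℝ} (P : Pkg H)

include P in
theorem alg_int (a : ℤ) : Alg H (fun _ => (a : ℂ)) := by
  obtain ⟨c, hc⟩ := pow_unbounded_of_one_lt (max |(a : ℝ)| 1) (by norm_num : (1 : ℝ) < 2)
  refine ⟨1, c, fun t => ⟨Polynomial.X - Polynomial.C a, Polynomial.X_sub_C_ne_zero a, ?_, ?_, ?_⟩⟩
  · rw [Polynomial.natDegree_X_sub_C]
  · intro i
    have h2 : (2 : ℝ) ^ c ≤ H t ^ c := pow_le_pow_left₀ (by norm_num) (P.hH t) c
    have h3 : |(a : ℝ)| ≤ H t ^ c := ((le_max_left _ _).trans hc.le).trans h2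
    have h4 : (1 : ℝ) ≤ H t ^ c := ((le_max_right _ _).trans hc.le).trans h2
    rw [Polynomial.coeff_sub, Polynomial.coeff_X, Polynomial.coeff_C]
    by_cases hi : i = 0
    · subst hi
      simpa using h3
    · by_cases hi1 : 1 = i
      · subst hi1
        simpa using h4
      · simp only [hi, hi1, if_false, sub_zero, Int.cast_zero, abs_zero]
        linarith
  · simp

include P in
theorem alg_fma (hPOL : T_POL) {z w u : ℕ → ℂ} (hz : Alg H z) (hw : Alg H w) (hu : Alg H u) :
    Alg H (fun t => z t + w t * u t) := by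
  classical
  obtain ⟨δ1, c1, h1⟩ := hz
  obtain ⟨δ2, c2, h2⟩ := hw
  obtain ⟨δ3, c3, h3⟩ := hu
  obtain ⟨δ', c', hP⟩ := hPOL (Fin 3) (δ1 + δ2 + δ3) 2
  refine ⟨δ', (c1 + c2 + c3 + 1) * c', fun t => ?_⟩
  have hH := P.hH t
  have hmono : ∀ a, a ≤ c1 + c2 + c3 + 1 → H t ^ a ≤ H t ^ (c1 + c2 + c3 + 1) := fun a ha =>
    pow_le_pow_right₀ (by linarith) ha
  have h2H : 2 ≤ H t ^ (c1 + c2 + c3 + 1) := by
    have := hmono 1 (by omega)
    rw [pow_one] at this
    linarith
  let Q : MvPolynomial (Fin 3) ℤ := MvPolynomial.X 0 + MvPolynomial.X 1 * MvPolynomial.X 2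
  have hQd : Q.totalDegree ≤ 2 := by
    refine (MvPolynomial.totalDegree_add _ _).trans (max_le ?_ ?_)
    · rw [MvPolynomial.totalDegree_X]; omega
    · refine (MvPolynomial.totalDegree_mul _ _).trans ?_
      rw [MvPolynomial.totalDegree_X, MvPolynomial.totalDegree_X]
  have hQc : ∀ m, |((Q.coeff m : ℤ) : ℝ)| ≤ H t ^ (c1 + c2 + c3 + 1) := by
    intro m
    refine le_trans ?_ h2H
    have e1 : (MvPolynomial.X 1 * MvPolynomial.X 2 : MvPolynomial (Fin 3) ℤ) =
        MvPolynomial.monomial (Finsupp.single 1 1 + Finsupp.single 2 1) 1 := by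
      rw [MvPolynomial.X, MvPolynomial.X, MvPolynomial.monomial_mul, one_mul]
    simp only [Q, MvPolynomial.coeff_add, e1, MvPolynomial.coeff_X, MvPolynomial.coeff_monomial]
    push_cast
    refine (abs_add_le _ _).trans ?_
    split_ifs <;> norm_num
  have h := hP (H t ^ (c1 + c2 + c3 + 1)) h2H ![z t, w t, u t] (by
    intro i
    fin_cases i
    · exact algB_mono3 (h1 t) (by omega) (hmono _ (by omega))
    · exact algB_mono3 (h2 t) (by omega) (hmono _ (by omega))
    · exact algB_mono3 (h3 t) (by omega) (hmono _ (by omega))) Q hQd hQc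
  rw [← pow_mul] at h
  simpa [Q] using h

include P in
theorem alg_sum (hPOL : T_POL) {ι : Type} (s : Finset ι) (z w : ι → ℕ → ℂ)
    (hz : ∀ i ∈ s, Alg H (z i)) (hw : ∀ i ∈ s, Alg H (w i)) :
    Alg H (fun t => ∑ i ∈ s, z i t * w i t) := by
  classical
  induction s using Finset.induction_on with
  | empty => simpa using alg_int P 0
  | insert a s ha ih =>
    have h1 := alg_fma P hPOL (ih (fun i hi => hz i (Finset.mem_insert_of_mem hi))
      (fun i hi => hw i (Finset.mem_insert_of_mem hi))) (hz a (Finset.mem_insert_self _ _))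
      (hw a (Finset.mem_insert_self _ _))
    obtain ⟨δ, c, h2⟩ := h1
    refine ⟨δ, c, fun t => ?_⟩
    have h3 := h2 t
    simp only at h3 ⊢
    rw [Finset.sum_insert ha, add_comm]
    exact h3

include P in
theorem alg_sub (hPOL : T_POL) {z w : ℕ → ℂ} (hz : Alg H z) (hw : Alg H w) :
    Alg H (fun t => z t - w t) := by
  obtain ⟨δ, c, h2⟩ := alg_fma P hPOL hz (alg_int P (-1)) hw
  refine ⟨δ, c, fun t => ?_⟩
  have := h2 t
  have e : z t - w t = z t + ((-1 : ℤ) : ℂ) * w t := by push_cast; ring
  simp only at this ⊢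
  rw [e]
  exact this

theorem alg_mem (hROOT : T_ROOT) {z : ℕ → ℂ} (hz : Alg H z) : z ∈ P.O := by
  obtain ⟨δ, c, h⟩ := hz
  refine P.mem_of_le (c + 1) fun t => ?_
  have hH := P.hH t
  have h1 : (1 : ℝ) ≤ H t ^ c := P.one_le_pow t c
  refine (hROOT δ (H t ^ c) _ h1 (h t)).1.trans ?_
  rw [pow_succ]
  nlinarith

/-- exactness -/
theorem alg_exact (hROOT : T_ROOT) {z : ℕ → ℂ} (hz : Alg H z) (h0 : P.ev z = 0) :
    ∀ᶠ t in (hyperfilter ℕ : Filter ℕ), z t = 0 := by
  have hmem := alg_mem P hROOT hz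
  obtain ⟨δ, c, h⟩ := hz
  rw [P.ev_eq_zero hmem] at h0
  filter_upwards [h0 (c + 2)] with t ht'
  by_contra hne
  have h2 := P.hH t
  have h3 : (1 : ℝ) ≤ H t ^ c := one_le_pow₀ (by linarith)
  have h4 := (hROOT δ (H t ^ c) _ h3 (h t)).2 hne
  have hpos : 0 < ‖z t‖ := norm_pos_iff.2 hne
  have h5 : 1 ≤ ‖z t‖ * (1 + H t ^ c) := by
    rw [inv_le_iff_one_le_mul₀ hpos] at h4
    linarith [mul_comm ‖z t‖ (1 + H t ^ c)]
  have h6 : 1 + H t ^ c < H t ^ (c + 2) := by
    rw [pow_add]
    have h8 : (4 : ℝ) ≤ H t ^ 2 := by nlinarith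
    nlinarith [mul_le_mul_of_nonneg_left h8 (by linarith : (0 : ℝ) ≤ H t ^ c)]
  have h7 := mul_lt_mul_of_pos_left h6 hpos
  linarith

/-- lifting of a number, `0` and `1` to the constants -/
theorem lift01 (hLFT : T_LFT) (x : P.kb) : ∃ z : ℕ → ℂ, Alg H z ∧
    P.ev z = algebraMap P.kb P.F x ∧ (x = 0 → ∀ t, z t = 0) ∧ (x = 1 → ∀ t, z t = 1) := by
  by_cases h0 : x = 0
  · refine ⟨fun _ => 0, ?_, ?_, fun _ _ => rfl, fun h1 => ?_⟩
    · simpa using alg_int P 0
    · rw [h0, map_zero]
      exact P.ev_zero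
    · rw [h0] at h1
      exact absurd h1 zero_ne_one
  by_cases h1 : x = 1
  · refine ⟨fun _ => 1, ?_, ?_, fun h => absurd h h0, fun _ _ => rfl⟩
    · simpa using alg_int P 1
    · rw [h1, map_one]
      exact P.ev_one
  obtain ⟨δ, c, z, hz, hzx, hza⟩ := hLFT H P (algebraMap P.kb P.F x)
    (mem_algebraicClosure_iff.1 x.2)
  exact ⟨z, ⟨δ, c, hza⟩, hzx, fun h => absurd h h0, fun h => absurd h h1⟩

/-- residue of a sum of products -/
theorem ev_dot {ι : Type} [Fintype ι] (z w : ι → ℕ → ℂ) (hz : ∀ i, z i ∈ P.O)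
    (hw : ∀ i, w i ∈ P.O) : P.ev (fun t => ∑ i, z i t * w i t) = ∑ i, P.ev (z i) * P.ev (w i) := by
  have e1 : (fun t => ∑ i, z i t * w i t) = ∑ i, z i * w i := by
    funext t
    simp [Finset.sum_apply]
  rw [e1, P.ev_sum _ _ (fun i _ => P.O.mul_mem (hz i) (hw i))]
  exact Finset.sum_congr rfl fun i _ => P.ev_mul (hz i) (hw i)

end

theorem pf_LFX (hLFT : T_LFT) (hROOT : T_ROOT) (hPOL : T_POL) : T_LFX := by
  classical
  intro H P n l c δ At hAt A hA V U hVU
  obtain ⟨J, b, hbV, hbJ, -⟩ := ech_field V rfl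
  obtain ⟨I, d, -, hdI, hdU⟩ := ech_field U rfl
  choose zb hzb1 hzb2 hzb3 hzb4 using fun i p => lift01 P hLFT (b i p)
  choose zd hzd1 hzd2 hzd3 hzd4 using fun i p => lift01 P hLFT (d i p)
  have hAlgA : ∀ k p j, Alg H (fun t => At t k p j) := by
    intro k p j
    refine ⟨δ, 1, fun t => ?_⟩
    rw [pow_one]
    exact hAt t k p j
  -- the products
  have hM1 : ∀ i k j, Alg H (fun t => ∑ p, zb i p t * At t k p j) := fun i k j =>
    alg_sum P hPOL Finset.univ (fun p => zb i p) (fun p t => At t k p j)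
      (fun p _ => hzb1 i p) (fun p _ => hAlgA k p j)
  have hM2 : ∀ i k j, P.ev (fun t => ∑ p, zb i p t * At t k p j) =
      algebraMap P.kb P.F (Matrix.vecMul (b i) (A k) j) := by
    intro i k j
    rw [ev_dot P (fun p => zb i p) (fun p t => At t k p j)
      (fun p => alg_mem P hROOT (hzb1 i p)) (fun p => alg_mem P hROOT (hAlgA k p j))]
    simp only [Matrix.vecMul, dotProduct, map_sum, map_mul]
    exact Finset.sum_congr rfl fun p _ => by rw [hzb2, hA]
  have hR1 : ∀ i k j, Alg H (fun t => (∑ p, zb i p t * At t k p j) -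
      ∑ s, (∑ p, zb i p t * At t k p (I s)) * zd s j t) := fun i k j =>
    alg_sub P hPOL (hM1 i k j) (alg_sum P hPOL Finset.univ
      (fun s t => ∑ p, zb i p t * At t k p (I s)) (fun s => zd s j)
      (fun s _ => hM1 i k (I s)) (fun s _ => hzd1 s j))
  have hR2 : ∀ i k j, P.ev (fun t => (∑ p, zb i p t * At t k p j) -
      ∑ s, (∑ p, zb i p t * At t k p (I s)) * zd s j t) = 0 := by
    intro i k j
    have h1 := P.ev_sub (alg_mem P hROOT (hM1 i k j)) (alg_mem P hROOT (alg_sum P hPOL Finset.univ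
      (fun s t => ∑ p, zb i p t * At t k p (I s)) (fun s => zd s j)
      (fun s _ => hM1 i k (I s)) (fun s _ => hzd1 s j)))
    have h2 := ev_dot P (fun s t => ∑ p, zb i p t * At t k p (I s)) (fun s => zd s j)
      (fun s => alg_mem P hROOT (hM1 i k (I s))) (fun s => alg_mem P hROOT (hzd1 s j))
    refine h1.trans ?_
    rw [h2, hM2]
    have h3 := congrFun (hdU _ (hVU k (Set.mem_univ _) (b i) (hbV i))) j
    rw [Finset.sum_apply] at h3
    simp only [Pi.smul_apply, smul_eq_mul] at h3
    conv_lhs => rw [h3]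
    rw [map_sum, sub_eq_zero]
    refine Finset.sum_congr rfl fun s _ => ?_
    rw [map_mul, hM2, hzd2]
  have hR3 : ∀ᶠ t in (hyperfilter ℕ : Filter ℕ), ∀ i k j, (∑ p, zb i p t * At t k p j) -
      ∑ s, (∑ p, zb i p t * At t k p (I s)) * zd s j t = 0 := by
    rw [Filter.eventually_all]
    intro i
    rw [Filter.eventually_all]
    intro k
    rw [Filter.eventually_all]
    intro j
    exact alg_exact P hROOT (hR1 i k j) (hR2 i k j)
  filter_upwards [hR3] with t ht
  refine ⟨Submodule.span ℂ (Set.range fun i p => zb i p t),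
    Submodule.span ℂ (Set.range fun i p => zd i p t), ?_, ?_, ?_⟩
  · refine finrank_unit J (fun i p => zb i p t) fun i j => ?_
    by_cases hij : i = j
    · rw [if_pos hij]
      exact hzb4 i (J j) (by rw [hbJ, if_pos hij]) t
    · rw [if_neg hij]
      exact hzb3 i (J j) (by rw [hbJ, if_neg hij]) t
  · refine finrank_unit I (fun i p => zd i p t) fun i j => ?_
    by_cases hij : i = j
    · rw [if_pos hij]
      exact hzd4 i (I j) (by rw [hdI, if_pos hij]) t
    · rw [if_neg hij]
      exact hzd3 i (I j) (by rw [hdI, if_neg hij]) t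
  · intro k _ y hy
    have hle : Submodule.span ℂ (Set.range fun i p => zb i p t) ≤
        (Submodule.span ℂ (Set.range fun i p => zd i p t)).comap
          (Matrix.vecMulLinear (At t k)) := by
      rw [Submodule.span_le]
      rintro _ ⟨i, rfl⟩
      rw [SetLike.mem_coe, Submodule.mem_comap, Matrix.vecMulLinear_apply]
      have h1 : Matrix.vecMul (fun p => zb i p t) (At t k) =
          ∑ s, (∑ p, zb i p t * At t k p (I s)) • (fun j => zd s j t) := by
        funext j
        rw [Finset.sum_apply]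
        have h2 := sub_eq_zero.1 (ht i k j)
        simp only [Matrix.vecMul, dotProduct, Pi.smul_apply, smul_eq_mul]
        exact h2
      rw [h1]
      exact Submodule.sum_mem _ fun s _ => Submodule.smul_mem _ _
        (Submodule.subset_span ⟨s, rfl⟩)
    exact hle hy

end Pool.Agent.H49.PER
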